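import Mathlib
import Pool.Agent.Lib.CookLevin.Defs
import Pool.Agent.Lib.MP_71902e_lc.Defs
import Pool.Agent.Lib.MP_71902e_lc.Main
import Pool.Agent.Lib.MP_71902e_lc.InNP

/-!
Recognising `(AB)^{t/2}`-free hypergraphs, given by their incidence matrices, is NP-complete for
every fixed `t ≥ 4`.
-/

namespace Pool.Agent.Results.MP_71902e_lc.RecognitionNPComplete

open Pool.Agent.Lib.MP_71902e_lc

/-- For every `t ≥ 4` the recognition problem for `(AB)^{t/2}`-free hypergraphs is
NP-complete. -/
theorem result : ∀ t : ℕ, 4 ≤ t →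
    Pool.Agent.CookLevin.NPComplete (alternationFreeHypergraphs t) :=
  fun t ht => ⟨inNP t, npHard ht⟩

end Pool.Agent.Results.MP_71902e_lc.RecognitionNPComplete
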